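import Mathlib

/-!
Algebra behind the fixed points of the composition of two earthquakes on the torus with one
cone point.
-/

namespace Pool.Agent.Work.MP_a54ca8_gt

open Real

theorem half (t : ℝ) (ht : 0 < t) : ∃ T : ℝ, 0 < T ∧ T < 1 ∧
    cosh (t / 2) - T * sinh (t / 2) = 1 ∧ sinh (t / 2) - T * cosh (t / 2) = T := by
  have hc : 0 < cosh (t / 4) := cosh_pos _
  have hs : 0 < sinh (t / 4) := sinh_pos_iff.2 (by linarith)
  have h2 : t / 2 = 2 * (t / 4) := by ring
  have hcs : cosh (t / 4) ^ 2 - sinh (t / 4) ^ 2 = 1 := cosh_sq_sub_sinh_sq _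
  have hlt : sinh (t / 4) < cosh (t / 4) := sinh_lt_cosh _
  refine ⟨sinh (t / 4) / cosh (t / 4), div_pos hs hc, (div_lt_one hc).2 hlt, ?_, ?_⟩
  · rw [h2, cosh_two_mul, sinh_two_mul]
    field_simp
    nlinarith
  · rw [h2, cosh_two_mul, sinh_two_mul]
    field_simp
    nlinarith

theorem sq_sub_pos (x : ℝ) (hx : 2 < x) : 0 < x ^ 2 - 4 := by nlinarith

theorem two_lt_sqrt (u : ℝ) (hu : 0 < u) : 2 < √(u + 4) := by
  rw [lt_sqrt (by norm_num)]
  linarith

theorem sqrt_lt_sqrt_add (u : ℝ) (hu : 0 < u) : √u < √(u + 4) :=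
  sqrt_lt_sqrt hu.le (by linarith)

/-- The two equations for `U = x ^ 2 - 4` and `V = y ^ 2 - 4`. -/
theorem core_unique (k T S U V U' V' : ℝ) (hk : 0 < k) (hT : 0 < T) (hT1 : T < 1) (hS : 0 < S)
    (hS1 : S < 1) (hU : 0 < U) (hV : 0 < V) (hU' : 0 < U') (hV' : 0 < V')
    (h1 : U * V - 4 * k = (V + 4) * U * T ^ 2) (h2 : U * V - 4 * k = (U + 4) * V * S ^ 2)
    (h1' : U' * V' - 4 * k = (V' + 4) * U' * T ^ 2)
    (h2' : U' * V' - 4 * k = (U' + 4) * V' * S ^ 2) : U = U' ∧ V = V' := by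
  have hT2 : 0 < T ^ 2 := by positivity
  have hT3 : T ^ 2 < 1 := by nlinarith
  have hS2 : 0 < S ^ 2 := by positivity
  have hS3 : S ^ 2 < 1 := by nlinarith
  set P := T ^ 2 with hP
  set Q := S ^ 2 with hQ
  -- quadratic equation
  have q : ∀ u v : ℝ, 0 < u → 0 < v → u * v - 4 * k = (v + 4) * u * P →
      u * v - 4 * k = (u + 4) * v * Q →
      P * (1 - Q) * u ^ 2 + (k * (1 - Q) - 4 * P * Q - k * (1 - P)) * u - 4 * k * Q = 0 := by
    intro u v hu hv e1 e2
    have a1 : (1 - P) * (u * v) = 4 * k + 4 * u * P := by linarith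
    have a2 : v * ((1 - Q) * u - 4 * Q) = 4 * k := by linarith
    have a3 : (1 - P) * u * (v * ((1 - Q) * u - 4 * Q)) = (1 - P) * u * (4 * k) := by rw [a2]
    have a4 : (4 * k + 4 * u * P) * ((1 - Q) * u - 4 * Q) = (1 - P) * u * (4 * k) := by
      rw [← a1, ← a3]; ring
    nlinarith
  have e := q U V hU hV h1 h2
  have e' := q U' V' hU' hV' h1' h2'
  set a := P * (1 - Q) with ha
  set b := k * (1 - Q) - 4 * P * Q - k * (1 - P) with hb
  have hapos : 0 < a := mul_pos hT2 (by linarith)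
  have hd : (U - U') * (a * (U + U') + b) = 0 := by nlinarith
  have hpos : 0 < a * U + b := by
    have : 0 < U * (a * U + b) := by nlinarith [mul_pos hk hS2]
    exact (pos_iff_pos_of_mul_pos this).1 hU
  have hUU : U = U' := by
    rcases mul_eq_zero.1 hd with h | h
    · linarith
    · nlinarith [mul_pos hapos hU']
  refine ⟨hUU, ?_⟩
  subst hUU
  have : (1 - P) * U * (V - V') = 0 := by nlinarith
  rcases mul_eq_zero.1 this with h | h
  · exfalso
    have : 0 < (1 - P) * U := mul_pos (by linarith) hU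
    linarith
  · linarith

theorem core_exists (k T S : ℝ) (hk : 0 < k) (hT : 0 < T) (hT1 : T < 1) (hS : 0 < S)
    (hS1 : S < 1) : ∃ U V : ℝ, 0 < U ∧ 0 < V ∧
      U * V - 4 * k = (V + 4) * U * T ^ 2 ∧ U * V - 4 * k = (U + 4) * V * S ^ 2 := by
  have hT2 : 0 < T ^ 2 := by positivity
  have hT3 : T ^ 2 < 1 := by nlinarith
  have hS2 : 0 < S ^ 2 := by positivity
  have hS3 : S ^ 2 < 1 := by nlinarith
  set P := T ^ 2 with hP
  set Q := S ^ 2 with hQ
  set a := P * (1 - Q) with ha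
  set b := k * (1 - Q) - 4 * P * Q - k * (1 - P) with hb
  have hapos : 0 < a := mul_pos hT2 (by linarith)
  have hcpos : 0 < 4 * k * Q := by positivity
  set D := b ^ 2 + 4 * a * (4 * k * Q) with hD
  have hDpos : b ^ 2 < D := by nlinarith [mul_pos hapos hcpos]
  have hD0 : 0 ≤ D := by nlinarith [sq_nonneg b]
  have hsq : √D ^ 2 = D := sq_sqrt hD0
  have hbD : b < √D := by
    by_contra h
    push Not at h
    have : 0 ≤ √D := sqrt_nonneg D
    nlinarith
  set U := (√D - b) / (2 * a) with hU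
  have hUpos : 0 < U := div_pos (by linarith) (by linarith)
  have hUeq : a * U ^ 2 + b * U - 4 * k * Q = 0 := by
    have h2 : 2 * a * U = √D - b := by
      rw [hU]; field_simp
    have h3 : (2 * a * U + b) ^ 2 = D := by rw [h2]; ring_nf; exact hsq
    have h4 : 4 * a * (a * U ^ 2 + b * U - 4 * k * Q) = 0 := by nlinarith
    rcases mul_eq_zero.1 h4 with h | h
    · linarith
    · exact h
  set V := (4 * k / U + 4 * P) / (1 - P) with hV
  have hP1 : 0 < 1 - P := by linarith
  have hVpos : 0 < V := by positivity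
  have e1 : (1 - P) * U * V = 4 * k + 4 * U * P := by
    rw [hV]; field_simp
  have e1' : U * V - 4 * k = (V + 4) * U * P := by linarith
  refine ⟨U, V, hUpos, hVpos, e1', ?_⟩
  have h5 : (1 - P) * U * (V * ((1 - Q) * U - 4 * Q) - 4 * k) = 0 := by
    have h6 : (1 - P) * U * (V * ((1 - Q) * U - 4 * Q) - 4 * k)
        = ((1 - P) * U * V) * ((1 - Q) * U - 4 * Q) - 4 * k * ((1 - P) * U) := by ring
    rw [h6, e1]
    nlinarith
  rcases mul_eq_zero.1 h5 with h | h
  · exfalso
    have := mul_pos hP1 hUpos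
    linarith
  · linarith

end Pool.Agent.Work.MP_a54ca8_gt
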